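import Mathlib

set_option autoImplicit false

namespace Pool.Agent.Results.MP_cefe55_nt.TwoCurves

open MeasureTheory Real

/-! ### Heights of curves in `P^1 x P^1` -/

/-- Average of a function over the projective line with respect to the Fubini-Study probability
measure `π⁻¹ (1 + |z|²)⁻² dx dy`, written in polar coordinates. -/
noncomputable def fsAvg (u : ℂ → ℝ) : ℝ :=
  ∫ r in Set.Ioi (0 : ℝ), circleAverage u 0 r * (2 * r / (1 + r ^ 2) ^ 2)

/-- A curve in `P^1 x P^1` over `ℚ` which meets the affine plane, given by its primitive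
irreducible equation over the integers. -/
def IsCurve (F : MvPolynomial (Fin 2) ℤ) : Prop := Irreducible F ∧ F.totalDegree ≠ 0

/-- The complex points of the curve in the affine plane. -/
def points (F : MvPolynomial (Fin 2) ℤ) : Set (ℂ × ℂ) :=
  {p | MvPolynomial.aeval ![p.1, p.2] F = 0}

/-- The arithmetic degree of the closure of the curve `F = 0` in `P^1_Z x P^1_Z` against the square
of the first arithmetic Chern class of `O(1,1)` with the Fubini-Study metric scaled by
`exp (-c)`, where `κ = 1 / 2 + 2 * c`. -/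
noncomputable def height (κ : ℝ) (F : MvPolynomial (Fin 2) ℤ) : ℝ :=
  κ * (F.degreeOf 0 + F.degreeOf 1) +
    2 * fsAvg fun x => fsAvg fun y => log ‖MvPolynomial.aeval ![x, y] F‖

/-- The self-map `(x, y) ↦ (g x, h y)`. -/
noncomputable def selfMap (g h : Polynomial ℤ) (p : ℂ × ℂ) : ℂ × ℂ :=
  (Polynomial.aeval p.1 g, Polynomial.aeval p.2 h)

/-- The curve `G = 0` with multiplicity `m` is the push-forward of the curve `F = 0` under `φ`:
it is the image, and all but finitely many points of it have exactly `m` preimages on the curve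
`F = 0`. -/
def IsPushforward (φ : ℂ × ℂ → ℂ × ℂ) (F : MvPolynomial (Fin 2) ℤ) (m : ℕ)
    (G : MvPolynomial (Fin 2) ℤ) : Prop :=
  IsCurve G ∧ φ '' points F = points G ∧
    ∃ E : Set (ℂ × ℂ), E.Finite ∧ ∀ q ∈ points G \ E, {p ∈ points F | φ p = q}.ncard = m

/-- `L` is the arithmetic degree of the map along the curve `F = 0`: the limit superior of the
`n`-th roots of the heights of the push-forwards under the iterates. -/
def IsArithDegree (κ : ℝ) (g h : Polynomial ℤ) (F : MvPolynomial (Fin 2) ℤ) (L : ENNReal) :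
    Prop :=
  ∃ (G : ℕ → MvPolynomial (Fin 2) ℤ) (m : ℕ → ℕ),
    (∀ n, IsPushforward (selfMap g h)^[n] F (m n) (G n)) ∧
    L = Filter.limsup (fun n : ℕ => ENNReal.ofReal (m n * height κ (G n)) ^ (1 / (n : ℝ)))
      Filter.atTop

/-- The union of the images of the curve under all iterates is Zariski dense. -/
def HasDenseOrbit (g h : Polynomial ℤ) (F : MvPolynomial (Fin 2) ℤ) : Prop :=
  ∀ G : MvPolynomial (Fin 2) ℂ, G ≠ 0 →
    ∃ n : ℕ, ∃ p ∈ points F, MvPolynomial.eval ![((selfMap g h)^[n] p).1,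
      ((selfMap g h)^[n] p).2] G ≠ 0

/-! ### Integrals -/

/-- the weight -/
noncomputable def w (r : ℝ) : ℝ := 2 * r / (1 + r ^ 2) ^ 2

lemma w_nonneg {r : ℝ} (hr : 0 < r) : 0 ≤ w r := by unfold w; positivity

lemma w_cont : Continuous w := by
  unfold w
  refine Continuous.div (by fun_prop) (by fun_prop) fun r => ?_
  positivity

lemma w_le {r : ℝ} (hr : 0 < r) : w r ≤ (1 + r ^ 2)⁻¹ := by
  unfold w
  rw [div_le_iff₀ (by positivity)]
  have : (1 + r ^ 2)⁻¹ * (1 + r ^ 2) ^ 2 = 1 + r ^ 2 := by field_simp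
  rw [this]
  nlinarith [sq_nonneg (r - 1)]

lemma rw_le {r : ℝ} (hr : 0 < r) : r * w r ≤ 2 * (1 + r ^ 2)⁻¹ := by
  unfold w
  rw [mul_div_assoc', div_le_iff₀ (by positivity)]
  have : 2 * (1 + r ^ 2)⁻¹ * (1 + r ^ 2) ^ 2 = 2 * (1 + r ^ 2) := by field_simp
  rw [this]
  nlinarith [sq_nonneg r]

lemma w_int : IntegrableOn w (Set.Ioi 0) := by
  refine Integrable.mono' (g := fun r => (1 + r ^ 2)⁻¹) integrable_inv_one_add_sq.integrableOn
    w_cont.aestronglyMeasurable ?_
  filter_upwards [ae_restrict_mem measurableSet_Ioi] with r hr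
  rw [Real.norm_eq_abs, abs_of_nonneg (w_nonneg hr)]
  exact w_le hr

lemma rw_int : IntegrableOn (fun r => r * w r) (Set.Ioi 0) := by
  refine Integrable.mono' (g := fun r => 2 * (1 + r ^ 2)⁻¹)
    (integrable_inv_one_add_sq.const_mul 2).integrableOn
    (continuous_id.mul w_cont).aestronglyMeasurable ?_
  filter_upwards [ae_restrict_mem measurableSet_Ioi] with r hr
  have hr' : (0 : ℝ) < r := hr
  rw [Real.norm_eq_abs, abs_of_nonneg (mul_nonneg hr'.le (w_nonneg hr))]
  exact rw_le hr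

lemma w_integral : ∫ r in Set.Ioi (0 : ℝ), w r = 1 := by
  have h := integral_Ioi_of_hasDerivAt_of_tendsto (f := fun r : ℝ => -(1 + r ^ 2)⁻¹) (f' := w)
    (a := 0) (m := 0) ?_ ?_ w_int ?_
  · rw [h]; norm_num
  · exact (Continuous.neg (Continuous.inv₀ (by fun_prop) fun r => by positivity)).continuousWithinAt
  · intro r _
    have h1 : HasDerivAt (fun r : ℝ => 1 + r ^ 2) (2 * r) r := by
      simpa using ((hasDerivAt_pow 2 r).const_add 1)
    have h2 : HasDerivAt (fun r : ℝ => -(1 + r ^ 2)⁻¹) (-(-(2 * r) / (1 + r ^ 2) ^ 2)) r :=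
      (h1.fun_inv (by positivity)).fun_neg
    refine h2.congr_deriv ?_
    unfold w
    ring
  · have h1 : Filter.Tendsto (fun r : ℝ => (1 + r ^ 2)) Filter.atTop Filter.atTop :=
      Filter.tendsto_atTop_add_const_left _ _ (Filter.tendsto_pow_atTop two_ne_zero)
    simpa using (h1.inv_tendsto_atTop).neg

/-- the constant -/
noncomputable def C1 : ℝ := ∫ r in Set.Ioi (0 : ℝ), r * w r

lemma C1_nonneg : 0 ≤ C1 := by
  apply setIntegral_nonneg measurableSet_Ioi
  intro r hr
  have hr' : (0 : ℝ) < r := hr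
  exact mul_nonneg hr'.le (w_nonneg hr)

lemma fsAvg_le (u : ℂ → ℝ) (A B : ℝ) (hA : 0 ≤ A) (hB : 0 ≤ B) (hu : ∀ z, u z ≤ A + B * ‖z‖) :
    fsAvg u ≤ A + B * C1 := by
  have hint : IntegrableOn (fun r => (A + B * r) * w r) (Set.Ioi 0) := by
    have := (w_int.const_mul A).add (rw_int.const_mul B)
    refine this.congr (Filter.Eventually.of_forall fun r => ?_)
    simp only [Pi.add_apply]
    ring
  have hval : ∫ r in Set.Ioi (0 : ℝ), (A + B * r) * w r = A + B * C1 := by
    have h1 : ∀ r : ℝ, (A + B * r) * w r = A * w r + B * (r * w r) := fun r => by ring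
    simp_rw [h1]
    rw [integral_add (w_int.const_mul A) (rw_int.const_mul B), integral_const_mul,
      integral_const_mul, w_integral, C1]
    ring
  have hpt : ∀ r ∈ Set.Ioi (0 : ℝ), circleAverage u 0 r * w r ≤ (A + B * r) * w r := by
    intro r hr
    have hr' : (0 : ℝ) < r := hr
    apply mul_le_mul_of_nonneg_right _ (w_nonneg hr)
    by_cases hc : CircleIntegrable u 0 r
    · refine circleAverage_mono_on_of_le_circle hc fun z hz => ?_
      have hz' : ‖z‖ = r := by
        rw [mem_sphere_zero_iff_norm] at hz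
        rw [hz, abs_of_pos hr']
      have := hu z
      rwa [hz'] at this
    · rw [circleAverage.integral_undef hc]
      positivity
  unfold fsAvg
  change ∫ r in Set.Ioi (0 : ℝ), circleAverage u 0 r * w r ≤ _
  by_cases hI : IntegrableOn (fun r => circleAverage u 0 r * w r) (Set.Ioi 0)
  · rw [← hval]
    exact setIntegral_mono_on hI hint measurableSet_Ioi hpt
  · rw [integral_undef hI]
    have := C1_nonneg
    positivity

lemma fsAvg_const (a : ℝ) : fsAvg (fun _ => a) = a := by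
  unfold fsAvg
  simp_rw [circleAverage_const]
  change ∫ r in Set.Ioi (0 : ℝ), a * w r = a
  rw [integral_const_mul, w_integral, mul_one]

lemma le_fsAvg_log (A : ℝ) (hA : 1 ≤ A) : log A ≤ fsAvg (fun x => log ‖x - (A : ℂ)‖) := by
  have hA0 : 0 < A := by linarith
  have hlogA : 0 ≤ log A := Real.log_nonneg hA
  have hval : ∀ r ∈ Set.Ioi (0 : ℝ), circleAverage (fun x : ℂ => log ‖x - (A : ℂ)‖) 0 r =
      max (log r) (log A) := by
    intro r hr
    have hr' : (0 : ℝ) < r := hr
    have h1 := circleAverage_log_norm_sub_const_eq_log_radius_add_posLog (a := (A : ℂ)) (c := 0)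
      hr'.ne'
    rw [h1, zero_sub, norm_neg, Complex.norm_real, Real.norm_eq_abs, abs_of_pos hA0,
      posLog_apply, Real.log_mul (by positivity) (by positivity), Real.log_inv]
    rcases le_total (log r) (log A) with h | h
    · rw [max_eq_right h, max_eq_right (by linarith)]; ring
    · rw [max_eq_left h, max_eq_left (by linarith)]; ring
  unfold fsAvg
  have h1 : ∫ r in Set.Ioi (0 : ℝ), circleAverage (fun x : ℂ => log ‖x - (A : ℂ)‖) 0 r *
      (2 * r / (1 + r ^ 2) ^ 2) = ∫ r in Set.Ioi (0 : ℝ), max (log r) (log A) * w r := by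
    apply setIntegral_congr_fun measurableSet_Ioi
    intro r hr
    simp only
    rw [hval r hr]
    rfl
  rw [h1]
  have h2 : ∫ r in Set.Ioi (0 : ℝ), log A * w r = log A := by
    rw [integral_const_mul, w_integral, mul_one]
  refine h2.symm.le.trans ?_
  refine setIntegral_mono_on (w_int.const_mul _) ?_ measurableSet_Ioi fun r hr =>
    mul_le_mul_of_nonneg_right (le_max_right _ _) (w_nonneg hr)
  · have hint : IntegrableOn (fun r => (log A + r) * w r) (Set.Ioi 0) := by
      have := (w_int.const_mul (log A)).add rw_int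
      refine this.congr (Filter.Eventually.of_forall fun r => ?_)
      simp only [Pi.add_apply]
      ring
    refine Integrable.mono' hint ?_ ?_
    · exact (((Real.measurable_log.max measurable_const).mul w_cont.measurable)).aestronglyMeasurable
    · filter_upwards [ae_restrict_mem measurableSet_Ioi] with r hr
      have hr' : (0 : ℝ) < r := hr
      rw [Real.norm_eq_abs, abs_of_nonneg (mul_nonneg (hlogA.trans (le_max_right _ _))
        (w_nonneg hr))]
      apply mul_le_mul_of_nonneg_right _ (w_nonneg hr)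
      apply max_le
      · have := Real.log_le_sub_one_of_pos hr'
        linarith
      · linarith

/-! ### Algebra -/

section algebra

variable {R : Type*} [CommRing R] [IsDomain R]

/-- the parametrisation of `x ^ P = y ^ Q` -/
noncomputable def par (R : Type*) [CommRing R] (P Q : ℕ) :
    MvPolynomial (Fin 2) R →ₐ[R] Polynomial R :=
  MvPolynomial.aeval ![Polynomial.X ^ Q, Polynomial.X ^ P]

/-- the equation of `x ^ P = y ^ Q` -/
noncomputable def bin (R : Type*) [CommRing R] (P Q : ℕ) : MvPolynomial (Fin 2) R :=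
  MvPolynomial.X 0 ^ P - MvPolynomial.X 1 ^ Q

lemma par_bin (P Q : ℕ) : par R P Q (bin R P Q) = 0 := by
  simp [par, bin, ← pow_mul, mul_comm]

lemma par_monomial (P Q : ℕ) (m : Fin 2 →₀ ℕ) :
    par R P Q (MvPolynomial.monomial m 1) = Polynomial.X ^ (Q * m 0 + P * m 1) := by
  rw [par, MvPolynomial.aeval_monomial, Finsupp.prod_fintype _ _ (by simp)]
  simp [Fin.prod_univ_two, pow_add, pow_mul]

lemma dvd_of_par {P Q : ℕ} (hP : 0 < P) (hc : Nat.Coprime P Q)
    (G : MvPolynomial (Fin 2) R) (hG : par R P Q G = 0) : bin R P Q ∣ G := by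
  classical
  set I : Ideal (MvPolynomial (Fin 2) R) := Ideal.span {bin R P Q} with hI
  let qm : MvPolynomial (Fin 2) R →ₐ[R] (MvPolynomial (Fin 2) R ⧸ I) := Ideal.Quotient.mkₐ R I
  have hrel : qm (MvPolynomial.X 0) ^ P = qm (MvPolynomial.X 1) ^ Q := by
    rw [← sub_eq_zero, ← map_pow, ← map_pow, ← map_sub]
    exact Ideal.Quotient.eq_zero_iff_mem.mpr (Ideal.subset_span rfl)
  have hmon : ∀ m : Fin 2 →₀ ℕ, qm (MvPolynomial.monomial m 1) =
      qm (MvPolynomial.X 0) ^ m 0 * qm (MvPolynomial.X 1) ^ m 1 := by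
    intro m
    rw [MvPolynomial.monomial_eq, map_mul, Finsupp.prod_fintype _ _ (by simp)]
    simp [Fin.prod_univ_two]
  have key : ∀ m m' : Fin 2 →₀ ℕ, m 0 ≤ m' 0 → Q * m 0 + P * m 1 = Q * m' 0 + P * m' 1 →
      qm (MvPolynomial.monomial m 1) = qm (MvPolynomial.monomial m' 1) := by
    intro m m' h0 he
    obtain ⟨d, hd⟩ := Nat.exists_eq_add_of_le h0
    have h1 : P * m 1 = Q * d + P * m' 1 := by
      rw [hd, mul_add] at he
      omega
    have h2 : P ∣ Q * d := by
      have h3 : P ∣ Q * d + P * m' 1 := ⟨m 1, h1.symm⟩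
      exact (Nat.dvd_add_left (dvd_mul_right P _)).mp h3
    obtain ⟨t, ht⟩ := hc.dvd_of_dvd_mul_left h2
    have h4 : m 1 = Q * t + m' 1 := by
      rw [ht] at h1
      have : P * m 1 = P * (Q * t + m' 1) := by rw [h1]; ring
      exact Nat.eq_of_mul_eq_mul_left hP this
    rw [hmon, hmon, hd, h4, ht, pow_add, pow_add, pow_mul, pow_mul, hrel]
    ring
  have key' : ∀ m m' : Fin 2 →₀ ℕ, Q * m 0 + P * m 1 = Q * m' 0 + P * m' 1 →
      qm (MvPolynomial.monomial m 1) = qm (MvPolynomial.monomial m' 1) := by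
    intro m m' he
    rcases le_total (m 0) (m' 0) with h | h
    · exact key m m' h he
    · exact (key m' m h he.symm).symm
  let r : ℕ → (Fin 2 →₀ ℕ) := fun k =>
    if h : ∃ m : Fin 2 →₀ ℕ, Q * m 0 + P * m 1 = k then h.choose else 0
  let ψ : Polynomial R →ₗ[R] (MvPolynomial (Fin 2) R ⧸ I) :=
    (Polynomial.basisMonomials R).constr R fun k => qm (MvPolynomial.monomial (r k) 1)
  have hψ : ∀ k : ℕ, ψ (Polynomial.X ^ k) = qm (MvPolynomial.monomial (r k) 1) := by
    intro k
    have := (Polynomial.basisMonomials R).constr_basis R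
      (fun k => qm (MvPolynomial.monomial (r k) 1)) k
    rw [Polynomial.coe_basisMonomials] at this
    beta_reduce at this
    rw [← Polynomial.X_pow_eq_monomial] at this
    exact this
  have hcomp : ψ ∘ₗ (par R P Q).toLinearMap = qm.toLinearMap := by
    apply MvPolynomial.linearMap_ext
    intro m
    ext
    simp only [LinearMap.comp_apply, AlgHom.toLinearMap_apply]
    rw [par_monomial, hψ]
    apply key'
    have hex : ∃ m' : Fin 2 →₀ ℕ, Q * m' 0 + P * m' 1 = Q * m 0 + P * m 1 := ⟨m, rfl⟩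
    have : r (Q * m 0 + P * m 1) = hex.choose := dif_pos hex
    rw [this]
    exact hex.choose_spec
  have h1 : qm G = 0 := by
    have := LinearMap.congr_fun hcomp G
    simp only [LinearMap.comp_apply, AlgHom.toLinearMap_apply] at this
    rw [← this, hG, map_zero]
  exact Ideal.mem_span_singleton.mp (Ideal.Quotient.eq_zero_iff_mem.mp h1)

lemma bin_irreducible {P Q : ℕ} (hP : 0 < P) (hQ : 0 < Q) (hc : Nat.Coprime P Q) :
    Irreducible (bin R P Q) := by
  apply Prime.irreducible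
  refine ⟨?_, ?_, ?_⟩
  · intro h
    have := congrArg (MvPolynomial.eval ![1, 0]) h
    simp [bin, hQ.ne'] at this
  · intro h
    obtain ⟨u, hu⟩ := h.exists_right_inv
    have := congrArg (par R P Q) hu
    rw [map_mul, par_bin, zero_mul, map_one] at this
    exact zero_ne_one this
  · rintro a b ⟨c, hab⟩
    have h1 := congrArg (par R P Q) hab
    rw [map_mul, map_mul, par_bin, zero_mul, mul_eq_zero] at h1
    rcases h1 with h | h
    · exact Or.inl (dvd_of_par hP hc a h)
    · exact Or.inr (dvd_of_par hP hc b h)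

end algebra

lemma totalDegree_ne {F : MvPolynomial (Fin 2) ℤ} {a b : Fin 2 → ℤ}
    (h : MvPolynomial.eval a F ≠ MvPolynomial.eval b F) : F.totalDegree ≠ 0 := by
  intro h0
  rw [MvPolynomial.totalDegree_eq_zero_iff_eq_C] at h0
  rw [h0] at h
  simp at h

/-! ### The maps -/

/-- the two polynomials -/
noncomputable def g : Polynomial ℤ := Polynomial.X ^ 2
/-- the two polynomials -/
noncomputable def h : Polynomial ℤ := Polynomial.X ^ 3

lemma iterate_eq (n : ℕ) (p : ℂ × ℂ) :
    (selfMap g h)^[n] p = (p.1 ^ 2 ^ n, p.2 ^ 3 ^ n) := by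
  induction n with
  | zero => simp
  | succ n ih =>
    rw [Function.iterate_succ_apply', ih]
    simp only [selfMap, g, h, map_pow, Polynomial.aeval_X, ← pow_mul, pow_succ (n := n)]

lemma coprime_pows (n : ℕ) : Nat.Coprime (3 ^ n) (2 ^ n) :=
  Nat.Coprime.pow _ _ (by norm_num)

/-- a common root -/
lemma exists_root {P Q : ℕ} (hP : 0 < P) (hQ : 0 < Q) (hc : Nat.Coprime P Q) {x y : ℂ}
    (hxy : x ^ P = y ^ Q) : ∃ s : ℂ, s ^ Q = x ∧ s ^ P = y := by
  by_cases hx : x = 0
  · have hy : y = 0 := by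
      rw [hx, zero_pow hP.ne'] at hxy
      exact eq_zero_of_pow_eq_zero hxy.symm
    exact ⟨0, by rw [hx, zero_pow hQ.ne'], by rw [hy, zero_pow hP.ne']⟩
  have hy : y ≠ 0 := by
    rintro rfl
    rw [zero_pow hQ.ne'] at hxy
    exact hx (eq_zero_of_pow_eq_zero hxy)
  have hb : (Q : ℤ) * Nat.gcdB P Q + (P : ℤ) * Nat.gcdA P Q = 1 := by
    have := Nat.gcd_eq_gcd_ab P Q
    rw [hc] at this
    push_cast at this
    linarith
  set u := Nat.gcdB P Q
  set v := Nat.gcdA P Q
  have hxy' : x ^ (P : ℤ) = y ^ (Q : ℤ) := by exact_mod_cast hxy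
  refine ⟨x ^ u * y ^ v, ?_, ?_⟩
  · rw [← zpow_natCast, mul_zpow, ← zpow_mul, ← zpow_mul, mul_comm v (Q : ℤ), zpow_mul y, ← hxy',
      ← zpow_mul, ← zpow_add₀ hx]
    have : u * (Q : ℤ) + (P : ℤ) * v = 1 := by linarith
    rw [this, zpow_one]
  · rw [← zpow_natCast, mul_zpow, ← zpow_mul, ← zpow_mul, mul_comm u (P : ℤ), zpow_mul x, hxy',
      ← zpow_mul, ← zpow_add₀ hy]
    have : (Q : ℤ) * u + v * (P : ℤ) = 1 := by linarith
    rw [this, zpow_one]

lemma root_unique {P Q : ℕ} (hP : 0 < P) (hc : Nat.Coprime P Q) {s t : ℂ}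
    (hQ' : s ^ Q = t ^ Q) (hP' : s ^ P = t ^ P) : s = t := by
  by_cases hs : s = 0
  · rw [hs, zero_pow hP.ne'] at hP'
    rw [hs, eq_zero_of_pow_eq_zero hP'.symm]
  have ht : t ≠ 0 := by
    rintro rfl
    rw [zero_pow hP.ne'] at hP'
    exact hs (eq_zero_of_pow_eq_zero hP')
  have hb : (Q : ℤ) * Nat.gcdB P Q + (P : ℤ) * Nat.gcdA P Q = 1 := by
    have := Nat.gcd_eq_gcd_ab P Q
    rw [hc] at this
    push_cast at this
    linarith
  have h1 : ∀ z : ℂ, z ≠ 0 → z = (z ^ Q) ^ (Nat.gcdB P Q) * (z ^ P) ^ (Nat.gcdA P Q) := by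
    intro z hz
    rw [← zpow_natCast, ← zpow_natCast, ← zpow_mul, ← zpow_mul, ← zpow_add₀ hz, hb, zpow_one]
  rw [h1 s hs, h1 t ht, hQ', hP']

/-! ### The diagonal -/

lemma diag_push (n : ℕ) :
    IsPushforward (selfMap g h)^[n] (bin ℤ 1 1) 1 (bin ℤ (3 ^ n) (2 ^ n)) := by
  have h3 : 0 < 3 ^ n := by positivity
  have h2 : 0 < 2 ^ n := by positivity
  refine ⟨⟨bin_irreducible h3 h2 (coprime_pows n), ?_⟩, ?_, ∅, Set.finite_empty, ?_⟩
  · apply totalDegree_ne (a := ![1, 0]) (b := ![0, 0])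
    simp [bin]
  · ext ⟨x, y⟩
    simp only [Set.mem_image, points, Set.mem_ofPred_eq, bin, map_sub, map_pow,
      MvPolynomial.aeval_X, Matrix.cons_val_zero, Matrix.cons_val_one, pow_one]
    constructor
    · rintro ⟨⟨s, t⟩, hst, he⟩
      rw [iterate_eq] at he
      simp only [Prod.mk.injEq] at he
      have hst' : s = t := sub_eq_zero.mp hst
      rw [← he.1, ← he.2, ← hst', ← pow_mul, ← pow_mul, mul_comm, sub_self]
    · intro hxy
      obtain ⟨s, hs1, hs2⟩ := exists_root h3 h2 (coprime_pows n) (sub_eq_zero.mp hxy)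
      exact ⟨(s, s), sub_self s, by rw [iterate_eq]; simp [hs1, hs2]⟩
  · rintro ⟨x, y⟩ ⟨hq, -⟩
    simp only [points, Set.mem_ofPred_eq, bin, map_sub, map_pow, MvPolynomial.aeval_X,
      Matrix.cons_val_zero, Matrix.cons_val_one] at hq
    obtain ⟨s, hs1, hs2⟩ := exists_root h3 h2 (coprime_pows n) (sub_eq_zero.mp hq)
    rw [Set.ncard_eq_one]
    refine ⟨(s, s), ?_⟩
    ext ⟨a, b⟩
    simp only [Set.mem_ofPred_eq, Set.mem_singleton_iff, Prod.mk.injEq, points, bin, map_sub,
      MvPolynomial.aeval_X, Matrix.cons_val_zero, Matrix.cons_val_one, pow_one]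
    rw [iterate_eq]
    simp only [Prod.mk.injEq]
    constructor
    · rintro ⟨hab, ha, hb⟩
      have hab' : a = b := sub_eq_zero.mp hab
      subst hab'
      have : a = s := root_unique h3 (coprime_pows n) (by rw [ha, hs1]) (by rw [hb, hs2])
      exact ⟨this, this⟩
    · rintro ⟨rfl, rfl⟩
      exact ⟨sub_self _, hs1, hs2⟩

lemma degreeOf_bin_le (P Q : ℕ) : (bin ℤ P Q).degreeOf 0 ≤ P ∧ (bin ℤ P Q).degreeOf 1 ≤ Q := by
  constructor
  · refine (MvPolynomial.degreeOf_sub_le _ _ _).trans ?_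
    rw [MvPolynomial.degreeOf_X_self_pow, MvPolynomial.degreeOf_X_pow_of_ne _ (by decide)]
    simp
  · refine (MvPolynomial.degreeOf_sub_le _ _ _).trans ?_
    rw [MvPolynomial.degreeOf_X_self_pow, MvPolynomial.degreeOf_X_pow_of_ne _ (by decide)]
    simp

lemma log_bin_le (P Q : ℕ) (x y : ℂ) :
    log ‖MvPolynomial.aeval ![x, y] (bin ℤ P Q)‖ ≤ (log 2 + P * ‖x‖) + Q * ‖y‖ := by
  have h1 : MvPolynomial.aeval ![x, y] (bin ℤ P Q) = x ^ P - y ^ Q := by simp [bin]
  rw [h1]
  have hl : ∀ (t : ℝ) (k : ℕ), 0 ≤ t → t ^ k ≤ Real.exp (k * t) := by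
    intro t k ht
    rw [mul_comm, Real.exp_mul, Real.rpow_natCast]
    apply pow_le_pow_left₀ ht
    have := Real.add_one_le_exp t
    linarith
  by_cases h0 : x ^ P - y ^ Q = 0
  · rw [h0, norm_zero, Real.log_zero]
    have := Real.log_nonneg (show (1 : ℝ) ≤ 2 by norm_num)
    positivity
  rw [Real.log_le_iff_le_exp (norm_pos_iff.mpr h0), Real.exp_add, Real.exp_add,
    Real.exp_log (by norm_num)]
  have h2 := hl ‖x‖ P (norm_nonneg _)
  have h3 := hl ‖y‖ Q (norm_nonneg _)
  have h4 : 1 ≤ Real.exp (P * ‖x‖) := Real.one_le_exp (by positivity)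
  have h5 : 1 ≤ Real.exp (Q * ‖y‖) := Real.one_le_exp (by positivity)
  calc ‖x ^ P - y ^ Q‖ ≤ ‖x‖ ^ P + ‖y‖ ^ Q := by
        refine (norm_sub_le _ _).trans ?_
        rw [norm_pow, norm_pow]
    _ ≤ Real.exp (P * ‖x‖) + Real.exp (Q * ‖y‖) := add_le_add h2 h3
    _ ≤ 2 * Real.exp (P * ‖x‖) * Real.exp (Q * ‖y‖) := by nlinarith

lemma height_bin_le (κ : ℝ) (hκ : 0 ≤ κ) (n : ℕ) :
    height κ (bin ℤ (3 ^ n) (2 ^ n)) ≤ (2 * κ + 2 * log 2 + 4 * C1) * 3 ^ n := by
  have h1 : (fsAvg fun x => fsAvg fun y =>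
      log ‖MvPolynomial.aeval ![x, y] (bin ℤ (3 ^ n) (2 ^ n))‖) ≤
      (log 2 + (2 ^ n : ℕ) * C1) + (3 ^ n : ℕ) * C1 := by
    have hl2 := Real.log_nonneg (show (1 : ℝ) ≤ 2 by norm_num)
    have hC := C1_nonneg
    apply fsAvg_le _ _ _ (by positivity) (by positivity)
    intro x
    have := fsAvg_le (fun y => log ‖MvPolynomial.aeval ![x, y] (bin ℤ (3 ^ n) (2 ^ n))‖)
      (log 2 + (3 ^ n : ℕ) * ‖x‖) ((2 ^ n : ℕ) : ℝ) (by positivity) (by positivity)
      (fun y => log_bin_le _ _ x y)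
    linarith
  have h2 := (degreeOf_bin_le (3 ^ n) (2 ^ n)).1
  have h3 := (degreeOf_bin_le (3 ^ n) (2 ^ n)).2
  have h2' : (((bin ℤ (3 ^ n) (2 ^ n)).degreeOf 0 : ℕ) : ℝ) ≤ 3 ^ n := by exact_mod_cast h2
  have h3' : (((bin ℤ (3 ^ n) (2 ^ n)).degreeOf 1 : ℕ) : ℝ) ≤ 2 ^ n := by exact_mod_cast h3
  have h4 : (2 : ℝ) ^ n ≤ 3 ^ n := pow_le_pow_left₀ (by norm_num) (by norm_num) n
  have h5 : (1 : ℝ) ≤ 3 ^ n := one_le_pow₀ (by norm_num)
  have hl2 := Real.log_nonneg (show (1 : ℝ) ≤ 2 by norm_num)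
  have hC := C1_nonneg
  push_cast at h1
  unfold height
  have h6 : κ * ((((bin ℤ (3 ^ n) (2 ^ n)).degreeOf 0 : ℕ) : ℝ) +
      (((bin ℤ (3 ^ n) (2 ^ n)).degreeOf 1 : ℕ) : ℝ)) ≤ κ * (3 ^ n + 3 ^ n) :=
    mul_le_mul_of_nonneg_left (by linarith) hκ
  have h7 : log 2 ≤ log 2 * 3 ^ n := le_mul_of_one_le_right hl2 h5
  have h8 : (2 : ℝ) ^ n * C1 ≤ 3 ^ n * C1 := mul_le_mul_of_nonneg_right h4 hC
  nlinarith

lemma diag_degree (κ : ℝ) (hκ : 0 ≤ κ) :
    ∃ L : ENNReal, IsArithDegree κ g h (bin ℤ 1 1) L ∧ L ≤ 4 := by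
  refine ⟨_, ⟨fun n => bin ℤ (3 ^ n) (2 ^ n), fun _ => 1, diag_push, rfl⟩, ?_⟩
  set K : ℝ := 2 * κ + 2 * log 2 + 4 * C1 with hK
  have hev : ∀ᶠ n : ℕ in Filter.atTop, K * 3 ^ n ≤ (4 : ℝ) ^ n := by
    have h1 : Filter.Tendsto (fun n : ℕ => K * ((3 : ℝ) / 4) ^ n) Filter.atTop (nhds (K * 0)) :=
      (tendsto_pow_atTop_nhds_zero_of_lt_one (by norm_num) (by norm_num)).const_mul K
    rw [mul_zero] at h1
    filter_upwards [h1.eventually_lt_const one_pos] with n hn
    have h4 : (0 : ℝ) < 4 ^ n := by positivity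
    rw [div_pow, ← mul_div_assoc, div_lt_one h4] at hn
    exact hn.le
  refine Filter.limsup_le_of_le (by isBoundedDefault) ?_
  filter_upwards [hev, Filter.eventually_gt_atTop 0] with n hn hn0
  have h1 : ((1 : ℕ) : ℝ) * height κ (bin ℤ (3 ^ n) (2 ^ n)) ≤ 4 ^ n := by
    rw [Nat.cast_one, one_mul]
    exact (height_bin_le κ hκ n).trans hn
  have hn0' : (0 : ℝ) < n := by exact_mod_cast hn0
  calc ENNReal.ofReal (((1 : ℕ) : ℝ) * height κ (bin ℤ (3 ^ n) (2 ^ n))) ^ (1 / (n : ℝ)) ≤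
      (ENNReal.ofReal (4 ^ n)) ^ (1 / (n : ℝ)) :=
        ENNReal.rpow_le_rpow (ENNReal.ofReal_le_ofReal h1) (by positivity)
    _ = 4 := by
        rw [ENNReal.ofReal_pow (by norm_num), ← ENNReal.rpow_natCast, ← ENNReal.rpow_mul,
          mul_one_div_cancel hn0'.ne', ENNReal.rpow_one]
        norm_num

lemma diag_dense : HasDenseOrbit g h (bin ℤ 1 1) := by
  intro G hG
  by_contra hcon
  push Not at hcon
  obtain ⟨n, hn⟩ : ∃ n : ℕ, G.degreeOf 0 < 3 ^ n :=
    ⟨G.degreeOf 0, Nat.lt_pow_self (by norm_num)⟩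
  have h1 : par ℂ (3 ^ n) (2 ^ n) G = 0 := by
    apply Polynomial.funext
    intro s
    have h2 := hcon n (s, s) (by simp [points, bin])
    rw [iterate_eq] at h2
    rw [Polynomial.eval_zero]
    rw [← h2]
    have h3 : Polynomial.eval s (par ℂ (3 ^ n) (2 ^ n) G) =
        MvPolynomial.aeval (fun i => Polynomial.eval s
          ((![Polynomial.X ^ 2 ^ n, Polynomial.X ^ 3 ^ n] : Fin 2 → Polynomial ℂ) i)) G := by
      rw [par]
      have := MvPolynomial.comp_aeval_apply
        (f := (![Polynomial.X ^ 2 ^ n, Polynomial.X ^ 3 ^ n] : Fin 2 → Polynomial ℂ))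
        (Polynomial.aeval s) G
      simpa [Polynomial.coe_aeval_eq_eval] using this
    rw [h3]
    have h4 : (fun i => Polynomial.eval s
        ((![Polynomial.X ^ 2 ^ n, Polynomial.X ^ 3 ^ n] : Fin 2 → Polynomial ℂ) i)) =
        ![s ^ 2 ^ n, s ^ 3 ^ n] := by
      funext i
      fin_cases i <;> simp
    rw [h4]
    rfl
  obtain ⟨H, hH⟩ := dvd_of_par (by positivity) (coprime_pows n) G h1
  have hb0 : bin ℂ (3 ^ n) (2 ^ n) ≠ 0 := by
    intro h0; rw [h0, zero_mul] at hH; exact hG hH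
  have hH0 : H ≠ 0 := by
    intro h0; rw [h0, mul_zero] at hH; exact hG hH
  have h5 := MvPolynomial.degreeOf_mul_eq (n := 0) hb0 hH0
  rw [← hH] at h5
  have h6 : 3 ^ n ≤ (bin ℂ (3 ^ n) (2 ^ n)).degreeOf 0 := by
    have h7 : Finsupp.single (0 : Fin 2) (3 ^ n) ∈ (bin ℂ (3 ^ n) (2 ^ n)).support := by
      rw [MvPolynomial.mem_support_iff, bin, MvPolynomial.coeff_sub, MvPolynomial.coeff_X_pow,
        MvPolynomial.coeff_X_pow, if_pos rfl, if_neg]
      · norm_num
      · intro h8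
        have := DFunLike.congr_fun h8 0
        simp at this
        exact absurd this.symm (by positivity)
    have := MvPolynomial.monomial_le_degreeOf 0 h7
    simpa using this
  omega

/-! ### The vertical line -/

/-- the equation of the line `x = a` -/
noncomputable def line (a : ℤ) : MvPolynomial (Fin 2) ℤ := MvPolynomial.X 0 - MvPolynomial.C a

lemma aeval_line (a : ℤ) (x y : ℂ) : MvPolynomial.aeval ![x, y] (line a) = x - a := by
  simp [line]

lemma line_curve (a : ℤ) : IsCurve (line a) := by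
  constructor
  · rw [← MulEquiv.irreducible_iff (MvPolynomial.finSuccEquiv ℤ 1)]
    have : MvPolynomial.finSuccEquiv ℤ 1 (line a) =
        Polynomial.X - Polynomial.C (MvPolynomial.C a) := by
      rw [line, map_sub, MvPolynomial.finSuccEquiv_X_zero, MvPolynomial.finSuccEquiv_apply]
      simp
    rw [this]
    exact Polynomial.irreducible_X_sub_C _
  · apply totalDegree_ne (a := ![a + 1, 0]) (b := ![a, 0])
    simp [line]

lemma line_push (n : ℕ) :
    IsPushforward (selfMap g h)^[n] (line 2) (3 ^ n) (line (2 ^ 2 ^ n)) := by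
  have h3 : 0 < 3 ^ n := by positivity
  refine ⟨line_curve _, ?_, {((2 : ℂ) ^ 2 ^ n, 0)}, Set.finite_singleton _, ?_⟩
  · ext ⟨x, y⟩
    simp only [Set.mem_image, points, Set.mem_ofPred_eq, aeval_line]
    constructor
    · rintro ⟨⟨s, t⟩, hst, he⟩
      rw [iterate_eq] at he
      simp only [Prod.mk.injEq] at he
      have hst' : s = 2 := by
        have := sub_eq_zero.mp hst
        simpa using this
      rw [← he.1, hst']
      push_cast
      ring
    · intro hx
      obtain ⟨t, ht⟩ := IsAlgClosed.exists_pow_nat_eq y h3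
      refine ⟨(2, t), by simp, ?_⟩
      rw [iterate_eq]
      have hx' : x = 2 ^ 2 ^ n := by
        have := sub_eq_zero.mp hx
        rw [this]
        push_cast
        rfl
      simp [hx', ht]
  · rintro ⟨x, y⟩ ⟨hq, hne⟩
    simp only [points, Set.mem_ofPred_eq, aeval_line] at hq
    have hx' : x = 2 ^ 2 ^ n := by
      have := sub_eq_zero.mp hq
      rw [this]
      push_cast
      rfl
    have hy : y ≠ 0 := by
      rintro rfl
      exact hne (by rw [hx']; rfl)
    have hset : {p ∈ points (line 2) | (selfMap g h)^[n] p = (x, y)} =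
        (fun t : ℂ => ((2 : ℂ), t)) '' (Polynomial.nthRootsFinset (3 ^ n) y : Set ℂ) := by
      ext ⟨a, b⟩
      rw [Set.mem_image]
      simp only [Set.mem_ofPred_eq, points, aeval_line, Finset.mem_coe]
      rw [iterate_eq]
      constructor
      · rintro ⟨ha, hab⟩
        simp only [Prod.mk.injEq] at hab
        have ha' : a = 2 := by
          have := sub_eq_zero.mp ha
          simpa using this
        exact ⟨b, (Polynomial.mem_nthRootsFinset h3 y).mpr hab.2, by rw [ha']⟩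
      · rintro ⟨t, ht, he⟩
        simp only [Prod.mk.injEq] at he
        rw [Polynomial.mem_nthRootsFinset h3 y] at ht
        rw [← he.1, ← he.2]
        exact ⟨by simp, by rw [ht, hx']⟩
    rw [hset, Set.ncard_image_of_injective _ (fun s t hst => (Prod.mk.inj hst).2),
      Set.ncard_coe_finset, Polynomial.nthRootsFinset_def]
    have hprim := Complex.isPrimitiveRoot_exp (3 ^ n) h3.ne'
    rw [Multiset.toFinset_card_of_nodup (hprim.nthRoots_nodup hy), hprim.card_nthRoots,
      if_pos (IsAlgClosed.exists_pow_nat_eq y h3)]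

lemma le_height_line (κ : ℝ) (hκ : 0 ≤ κ) (n : ℕ) :
    2 * (2 ^ n * log 2) ≤ height κ (line (2 ^ 2 ^ n)) := by
  unfold height
  have h1 : (fsAvg fun x => fsAvg fun y =>
      log ‖MvPolynomial.aeval ![x, y] (line (2 ^ 2 ^ n))‖) =
      fsAvg (fun x => log ‖x - (((2 : ℝ) ^ 2 ^ n : ℝ) : ℂ)‖) := by
    congr 1
    funext x
    have : ∀ y : ℂ, log ‖MvPolynomial.aeval ![x, y] (line (2 ^ 2 ^ n))‖ =
        log ‖x - (((2 : ℝ) ^ 2 ^ n : ℝ) : ℂ)‖ := by
      intro y
      rw [aeval_line]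
      push_cast
      rfl
    simp_rw [this]
    exact fsAvg_const _
  rw [h1]
  have h2 := le_fsAvg_log ((2 : ℝ) ^ 2 ^ n) (one_le_pow₀ (by norm_num))
  rw [Real.log_pow, Nat.cast_pow, Nat.cast_ofNat] at h2
  have h3 : 0 ≤ κ * ((((line (2 ^ 2 ^ n)).degreeOf 0 : ℕ) : ℝ) +
      (((line (2 ^ 2 ^ n)).degreeOf 1 : ℕ) : ℝ)) := by positivity
  linarith

lemma line_degree (κ : ℝ) (hκ : 0 ≤ κ) :
    ∃ L : ENNReal, IsArithDegree κ g h (line 2) L ∧ 6 ≤ L := by
  refine ⟨_, ⟨fun n => line (2 ^ 2 ^ n), fun n => 3 ^ n, line_push, rfl⟩, ?_⟩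
  refine Filter.le_limsup_of_frequently_le ?_ (by isBoundedDefault)
  apply Filter.Eventually.frequently
  filter_upwards [Filter.eventually_gt_atTop 0] with n hn0
  have hn0' : (0 : ℝ) < n := by exact_mod_cast hn0
  have h1 : (6 : ℝ) ^ n ≤ ((3 ^ n : ℕ) : ℝ) * height κ (line (2 ^ 2 ^ n)) := by
    have h2 := le_height_line κ hκ n
    have h3 : (1 : ℝ) ≤ 2 * log 2 := by
      have := Real.log_two_gt_d9
      linarith
    have h4 : (2 : ℝ) ^ n ≤ 2 * (2 ^ n * log 2) := by
      have : (0 : ℝ) < 2 ^ n := by positivity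
      nlinarith
    calc (6 : ℝ) ^ n = 3 ^ n * 2 ^ n := by rw [← mul_pow]; norm_num
      _ ≤ 3 ^ n * height κ (line (2 ^ 2 ^ n)) :=
          mul_le_mul_of_nonneg_left (h4.trans h2) (by positivity)
      _ = _ := by push_cast; rfl
  calc (6 : ENNReal) = (ENNReal.ofReal (6 ^ n)) ^ (1 / (n : ℝ)) := by
        rw [ENNReal.ofReal_pow (by norm_num), ← ENNReal.rpow_natCast, ← ENNReal.rpow_mul,
          mul_one_div_cancel hn0'.ne', ENNReal.rpow_one]
        norm_num
    _ ≤ _ := ENNReal.rpow_le_rpow (ENNReal.ofReal_le_ofReal h1) (by positivity)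

lemma line_dense : HasDenseOrbit g h (line 2) := by
  intro G hG
  by_contra hcon
  push Not at hcon
  apply hG
  apply MvPolynomial.funext
  intro z
  rw [map_zero]
  -- the univariate polynomial `G (X, z 1)` has infinitely many zeros
  let q : Polynomial ℂ := MvPolynomial.aeval ![Polynomial.X, Polynomial.C (z 1)] G
  have hq : ∀ x : ℂ, Polynomial.eval x q = MvPolynomial.eval ![x, z 1] G := by
    intro x
    have := MvPolynomial.comp_aeval_apply
      (f := (![Polynomial.X, Polynomial.C (z 1)] : Fin 2 → Polynomial ℂ))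
      (Polynomial.aeval x) G
    have h4 : (fun i => Polynomial.eval x
        ((![Polynomial.X, Polynomial.C (z 1)] : Fin 2 → Polynomial ℂ) i)) = ![x, z 1] := by
      funext i
      fin_cases i <;> simp
    have h5 : Polynomial.eval x q = MvPolynomial.aeval (fun i => Polynomial.eval x
        ((![Polynomial.X, Polynomial.C (z 1)] : Fin 2 → Polynomial ℂ) i)) G := by
      simpa [Polynomial.coe_aeval_eq_eval] using this
    rw [h5, h4]
    rfl
  have hroots : ∀ n : ℕ, q.IsRoot ((2 : ℂ) ^ 2 ^ n) := by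
    intro n
    rw [Polynomial.IsRoot.def, hq]
    obtain ⟨t, ht⟩ := IsAlgClosed.exists_pow_nat_eq (z 1) (show 0 < 3 ^ n by positivity)
    have := hcon n (2, t) (by simp [points, aeval_line])
    rw [iterate_eq] at this
    simpa [ht] using this
  have hq0 : q = 0 := by
    apply Polynomial.eq_zero_of_infinite_isRoot
    refine Set.infinite_of_injective_forall_mem (f := fun n : ℕ => (2 : ℂ) ^ 2 ^ n) ?_ hroots
    intro m n hmn
    have h1 : ((2 : ℕ) ^ 2 ^ m : ℕ) = 2 ^ 2 ^ n := by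
      have : (2 : ℂ) ^ 2 ^ m = 2 ^ 2 ^ n := hmn
      exact_mod_cast this
    exact Nat.pow_right_injective le_rfl (Nat.pow_right_injective le_rfl h1)
  have h1 := hq (z 0)
  rw [hq0, Polynomial.eval_zero] at h1
  have h2 : (![z 0, z 1] : Fin 2 → ℂ) = z := by
    funext i
    fin_cases i <;> rfl
  rw [h2] at h1
  exact h1.symm

/-! ### Uniqueness of the push-forward -/

lemma height_neg (κ : ℝ) (F : MvPolynomial (Fin 2) ℤ) : height κ (-F) = height κ F := by
  simp [height, MvPolynomial.degreeOf_neg]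

lemma eq_or_neg {F G : MvPolynomial (Fin 2) ℤ} (hF : Irreducible F) (hG : Irreducible G)
    (hdvd : F ∣ G) : G = F ∨ G = -F := by
  obtain ⟨u, hu⟩ := hdvd
  have hunit : IsUnit u := (hG.isUnit_or_isUnit hu).resolve_left hF.not_isUnit
  obtain ⟨r, hr, hur⟩ := MvPolynomial.isUnit_iff_eq_C_of_isReduced.mp hunit
  rcases Int.isUnit_iff.mp hr with h | h
  · left; rw [hu, hur, h]; simp
  · right; rw [hu, hur, h]; simp

lemma bin_dvd (P Q : ℕ) (hP : 0 < P) (hc : Nat.Coprime P Q) (G : MvPolynomial (Fin 2) ℤ)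
    (hG : ∀ s : ℂ, MvPolynomial.aeval ![s ^ Q, s ^ P] G = 0) : bin ℤ P Q ∣ G := by
  apply dvd_of_par hP hc
  have h1 : (par ℤ P Q G).map (algebraMap ℤ ℂ) = 0 := by
    apply Polynomial.funext
    intro s
    rw [Polynomial.eval_zero, ← hG s, Polynomial.eval_map_algebraMap, par]
    have := MvPolynomial.comp_aeval_apply
      (f := (![Polynomial.X ^ Q, Polynomial.X ^ P] : Fin 2 → Polynomial ℤ))
      (Polynomial.aeval s) G
    rw [this]
    congr 2
    funext i
    fin_cases i <;> simp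
  exact (Polynomial.map_eq_zero_iff (RingHom.injective_int (algebraMap ℤ ℂ))).mp h1

lemma line_dvd (a : ℤ) (G : MvPolynomial (Fin 2) ℤ)
    (hG : ∀ y : ℂ, MvPolynomial.aeval ![(a : ℂ), y] G = 0) : line a ∣ G := by
  -- reduce modulo `X 0 - a`
  have h0 : MvPolynomial.aeval ![MvPolynomial.C a, MvPolynomial.X 1] G =
      (0 : MvPolynomial (Fin 2) ℤ) := by
    apply MvPolynomial.map_injective (algebraMap ℤ ℂ) (RingHom.injective_int (algebraMap ℤ ℂ))
    rw [map_zero]
    apply MvPolynomial.funext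
    intro z
    rw [map_zero, MvPolynomial.eval_map]
    have := MvPolynomial.comp_aeval_apply
      (f := (![MvPolynomial.C a, MvPolynomial.X 1] : Fin 2 → MvPolynomial (Fin 2) ℤ))
      (MvPolynomial.aeval z) G
    have h1 : MvPolynomial.eval₂ (algebraMap ℤ ℂ) z
        (MvPolynomial.aeval ![MvPolynomial.C a, MvPolynomial.X 1] G) =
        MvPolynomial.aeval z (MvPolynomial.aeval ![MvPolynomial.C a, MvPolynomial.X 1] G) := rfl
    rw [h1, this, ← hG (z 1)]
    congr 2
    funext i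
    fin_cases i <;> simp
  set I : Ideal (MvPolynomial (Fin 2) ℤ) := Ideal.span {line a} with hI
  have h2 : ∀ H : MvPolynomial (Fin 2) ℤ, Ideal.Quotient.mk I H = Ideal.Quotient.mk I
      (MvPolynomial.aeval ![MvPolynomial.C a, MvPolynomial.X 1] H) := by
    intro H
    induction H using MvPolynomial.induction_on with
    | C r => simp
    | add p q hp hq => rw [map_add, map_add, map_add, hp, hq]
    | mul_X p i hp =>
      rw [map_mul, map_mul, map_mul, hp, MvPolynomial.aeval_X]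
      congr 1
      fin_cases i
      · have : MvPolynomial.X 0 - MvPolynomial.C a ∈ I := Ideal.subset_span rfl
        simpa using (Ideal.Quotient.eq.mpr this)
      · simp
  have h3 := h2 G
  rw [h0, map_zero] at h3
  exact Ideal.mem_span_singleton.mp (Ideal.Quotient.eq_zero_iff_mem.mp h3)

lemma push_unique {φ : ℂ × ℂ → ℂ × ℂ} {F G G' : MvPolynomial (Fin 2) ℤ} {m m' : ℕ}
    (hG : IsPushforward φ F m G) (hG' : IsPushforward φ F m' G') (hinf : (points G).Infinite) :
    m = m' := by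
  obtain ⟨-, h1, E, hE, h2⟩ := hG
  obtain ⟨-, h1', E', hE', h2'⟩ := hG'
  obtain ⟨q, hq, hqE⟩ := (hinf.sdiff (hE.union hE')).nonempty
  rw [Set.mem_union, not_or] at hqE
  rw [← h2 q ⟨hq, hqE.1⟩]
  exact h2' q ⟨by rw [← h1', h1]; exact hq, hqE.2⟩

lemma bin_points_infinite (P Q : ℕ) (hP : 0 < P) (hc : Nat.Coprime P Q) :
    (points (bin ℤ P Q)).Infinite := by
  refine Set.infinite_of_injective_forall_mem (f := fun s : ℂ => (s ^ Q, s ^ P)) ?_ ?_
  · intro s t hst
    exact root_unique hP hc (Prod.mk.inj hst).1 (Prod.mk.inj hst).2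
  · intro s
    simp [points, bin, ← pow_mul, mul_comm]

lemma line_points_infinite (a : ℤ) : (points (line a)).Infinite := by
  refine Set.infinite_of_injective_forall_mem (f := fun s : ℂ => ((a : ℂ), s)) ?_ ?_
  · intro s t hst
    exact (Prod.mk.inj hst).2
  · intro s
    simp [points, aeval_line]

lemma unique_of {F : MvPolynomial (Fin 2) ℤ} {G₀ : ℕ → MvPolynomial (Fin 2) ℤ} {m₀ : ℕ → ℕ}
    (h₀ : ∀ n, IsPushforward (selfMap g h)^[n] F (m₀ n) (G₀ n))
    (hinf : ∀ n, (points (G₀ n)).Infinite)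
    (hdvd : ∀ n, ∀ G : MvPolynomial (Fin 2) ℤ, points G = points (G₀ n) → G₀ n ∣ G)
    (κ : ℝ) (L : ENNReal) (hL : IsArithDegree κ g h F L) :
    L = Filter.limsup (fun n : ℕ => ENNReal.ofReal (m₀ n * height κ (G₀ n)) ^ (1 / (n : ℝ)))
      Filter.atTop := by
  obtain ⟨G, m, hG, rfl⟩ := hL
  congr 1
  funext n
  have h1 : m₀ n = m n := push_unique (h₀ n) (hG n) (hinf n)
  have h2 : height κ (G n) = height κ (G₀ n) := by
    rcases eq_or_neg (h₀ n).1.1 (hG n).1.1
      (hdvd n (G n) (by rw [← (hG n).2.1, (h₀ n).2.1])) with h3 | h3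
    · rw [h3]
    · rw [h3, height_neg]
  rw [h1, h2]

/-- **Two curves with Zariski dense orbits and different arithmetic degrees.** -/
theorem result : ∃ g h : Polynomial ℤ, g.Monic ∧ h.Monic ∧ 0 < g.natDegree ∧ 0 < h.natDegree ∧
    ∃ V V' : MvPolynomial (Fin 2) ℤ, IsCurve V ∧ IsCurve V' ∧
      HasDenseOrbit g h V ∧ HasDenseOrbit g h V' ∧
      ∀ κ : ℝ, 1 / 2 < κ →
        (∃ L, IsArithDegree κ g h V L) ∧ (∃ L', IsArithDegree κ g h V' L') ∧
        ∀ L L', IsArithDegree κ g h V L → IsArithDegree κ g h V' L' → L ≤ 4 ∧ 6 ≤ L' := by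
  refine ⟨g, h, Polynomial.monic_X_pow 2, Polynomial.monic_X_pow 3, ?_, ?_, bin ℤ 1 1, line 2,
    ⟨bin_irreducible one_pos one_pos (by norm_num), ?_⟩, line_curve 2, diag_dense, line_dense,
    fun κ hκ => ?_⟩
  · simp [g]
  · simp [h]
  · apply totalDegree_ne (a := ![1, 0]) (b := ![0, 0])
    simp [bin]
  · have hκ0 : 0 ≤ κ := by linarith
    obtain ⟨L, h1, h2⟩ := diag_degree κ hκ0
    obtain ⟨L', h3, h4⟩ := line_degree κ hκ0
    refine ⟨⟨L, h1⟩, ⟨L', h3⟩, fun M M' hM hM' => ?_⟩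
    have u1 := fun K hK => unique_of diag_push
      (fun n => bin_points_infinite _ _ (by positivity) (coprime_pows n))
      (fun n G hG => bin_dvd _ _ (by positivity) (coprime_pows n) G fun s => by
        have : ((s ^ 2 ^ n, s ^ 3 ^ n) : ℂ × ℂ) ∈ points (bin ℤ (3 ^ n) (2 ^ n)) := by
          simp [points, bin, ← pow_mul, mul_comm]
        rw [← hG] at this
        exact this) κ K hK
    have u2 := fun K hK => unique_of line_push (fun n => line_points_infinite _)
      (fun n G hG => line_dvd _ G fun s => by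
        have : ((((2 ^ 2 ^ n : ℤ) : ℂ), s) : ℂ × ℂ) ∈ points (line (2 ^ 2 ^ n)) := by
          simp [points, aeval_line]
        rw [← hG] at this
        exact this) κ K hK
    rw [u1 M hM, ← u1 L h1, u2 M' hM', ← u2 L' h3]
    exact ⟨h2, h4⟩

end Pool.Agent.Results.MP_cefe55_nt.TwoCurves
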